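import Pool.Agent.U152.EF.Abs

/-!
# Iwasawa's conjecture for number fields of degree `d`: fields with a real place and CM fields

Let `p` be an odd prime. `MuZero p F` says that `μ = 0` for the cyclotomic `ℤ_p`-extension of the number
field `F`: the degrees of the unramified elementary abelian `p`-extensions of the layers `F R` (the
orders of the groups `Cl(F R) / p`) are bounded. For a number field `F` and the complex conjugation `c`
of an embedding `ι` let `F_c = (F · c F) ∩ ℝ`, a number field with a real place. We prove:

* If `μ = 0` for the (finitely many) fields `F_c`, then `μ = 0` for `F` if and only if `μ = 0` for the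
  CM fields contained in `F`. In particular `μ = 0` for `F` if `F` contains no CM field.
* If `F` has no real place then `[F_c : ℚ] ≤ d (d - 1) / 2`, `d = [F : ℚ]`. So, for `d ≥ 3`: if `μ = 0` for
  the number fields with a real place of degree `≤ d (d - 1) / 2` and for the CM fields of degree `≤ d`,
  then `μ = 0` for all number fields of degree `≤ d`.

`MP_a4986b_nt.RealOrCM` has the first statement for fields `F` which are Galois over `ℚ` (then
`F_c = F ∩ ℝ`), with CM fields of degree prime to `p`. For other fields it has to be applied to the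
Galois closure, whose degree can be `d!`.

Proof. Let `G` be the absolute Galois group of `ℚ`, let `L` be the one of `F`, and let `G'`, `L' = L ∩ G'`
be the ones of a layer `R` of the cyclotomic extension and of `F R`. Let `h : L' → ℤ/p` be an unramified
homomorphism. Then `g ↦ h(g) + h(c⁻¹ g c)` is a homomorphism on `L' ∩ c L' c⁻¹`, which is invariant under
`c`, and as `p` is odd it has an extension to the absolute Galois group
`(L' ∩ c L' c⁻¹) ⟨c⟩` of `F_c R`, which is unramified. So, up to a bounded number of possibilities, it is
zero, and this for all the complex conjugations `c` which are different on the Galois closure `K` of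
`F`. Then `h(c⁻¹ n c) = - h(n)` for the elements `n` of the absolute Galois group of `K R` and all `c`,
and the restriction of `h` is invariant under `L' D`, where `D` is the group generated by the products
of two complex conjugations. By genus theory (each prime number has only finitely many primes above it
in the cyclotomic extension) the number of these restrictions is bounded by a constant times the number
of the unramified homomorphisms on `L' D`, and the field belonging to `L D` is totally real, and then
contained in `F_c`, or a CM field.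
-/

set_option autoImplicit false

namespace Pool.Agent.Results.MP_a4986b_nt.BoundedDegree

open Module IntermediateField Pool.Agent.W5h77.MB Pool.Agent.U152.MU Pool.Agent.U152.FS
open Pool.Agent.U152.EF
open Pool.Agent.Q60.MU (Qb inertia)
open scoped ComplexConjugate

/-- `F` is a number field with a real place: the elements of `F` are real for some embedding. -/
def HasRealPlace (F : IntermediateField ℚ Qb) : Prop :=
  ∃ φ : Qb →+* ℂ, ∀ x ∈ F, conj (φ x) = φ x

/-- `F` is a CM field: it has no real place, and the complex conjugation induces an automorphism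
of `F` which does not depend on the embedding. -/
def IsCM (F : IntermediateField ℚ Qb) : Prop :=
  ¬ HasRealPlace F ∧ ∀ x ∈ F, ∃ y ∈ F, ∀ φ : Qb →+* ℂ, φ y = conj (φ x)

/-- `c` is the complex conjugation of the field of the algebraic numbers for the embedding `ι`. -/
def IsConj (ι : Qb →+* ℂ) (c : Gal(Qb/ℚ)) : Prop := ∀ x, ι (c x) = conj (ι x)

theorem muZero_iff {p : ℕ} [hp : Fact p.Prime] (F : IntermediateField ℚ Qb) (hF : FiniteDimensional ℚ F) :
    MuZero p F ↔ HomBdd p ∅ F.fixingSubgroup := by
  have h1 : (inertia : ValuationSubring Qb → Subgroup Gal(Qb/ℚ)) = loc ∅ := by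
    funext w
    exact (loc_neg (by rintro ⟨ℓ, hℓ, -⟩; exact hℓ)).symm
  rw [homBdd_iff (big_fix F), ← h1, muS_iff hp.out]

/-- **`μ = 0` for a number field `F` if `μ = 0` for the fields `(F · cF) ∩ ℝ` and for the CM fields in
`F`; `μ = 0` for the number fields of degree `≤ d` if `μ = 0` for the fields with a real place of degree
`≤ d (d - 1) / 2` and the CM fields of degree `≤ d`.** -/
theorem result (p : ℕ) (hp : p.Prime) (hp2 : p ≠ 2) :
    (∀ F : IntermediateField ℚ Qb, FiniteDimensional ℚ F →
      (∀ (ι : Qb →+* ℂ) (c : Gal(Qb/ℚ)), IsConj ι c →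
        MuZero p ((F ⊔ F.map c.toAlgHom) ⊓ realSub ι)) →
      (MuZero p F ↔ ∀ E ≤ F, IsCM E → MuZero p E)) ∧
    ∀ d : ℕ, 3 ≤ d →
      (∀ E : IntermediateField ℚ Qb, FiniteDimensional ℚ E →
        (HasRealPlace E ∧ 2 * finrank ℚ E ≤ d * (d - 1) ∨ IsCM E ∧ finrank ℚ E ≤ d) →
          MuZero p E) →
      ∀ F : IntermediateField ℚ Qb, FiniteDimensional ℚ F → finrank ℚ F ≤ d → MuZero p F := by
  have hpf : Fact p.Prime := ⟨hp⟩
  have hS : Primes (∅ : Set ℕ) := ⟨Set.finite_empty, fun ℓ hℓ => absurd hℓ (Set.notMem_empty ℓ)⟩
  have hfd : ∀ E F : IntermediateField ℚ Qb, FiniteDimensional ℚ F → E ≤ F → FiniteDimensional ℚ E :=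
    fun E F _ hE => Submodule.finiteDimensional_of_le (S₁ := Subalgebra.toSubmodule E.toSubalgebra)
      (S₂ := Subalgebra.toSubmodule F.toSubalgebra) hE
  refine ⟨fun F hF h => ⟨fun h1 E hE _ => ?_, fun h1 => ?_⟩, fun d hd h F hF hFd => ?_⟩
  · rw [muZero_iff E (hfd E F hF hE)]
    exact hb_mono E F hF hE ((muZero_iff F hF).1 h1)
  · rw [muZero_iff F hF]
    exact abs_step (P := fun E => HomBdd p ∅ E.fixingSubgroup) hb_mono (hb_step hp2 hS) F
      (fun ι c hc => (muZero_iff _ inferInstance).1 (h ι c hc))
      fun E hE hcm => (muZero_iff E (hfd E F hF hE)).1 (h1 E hE hcm)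
  · rw [muZero_iff F hF]
    exact abs_deg (P := fun E => HomBdd p ∅ E.fixingSubgroup) hb_mono (hb_step hp2 hS) hd
      (fun E hE h1 h2 => (muZero_iff E hE).1 (h E hE (Or.inl ⟨h1, h2⟩)))
      (fun E hE h1 h2 => (muZero_iff E hE).1 (h E hE (Or.inr ⟨h1, h2⟩))) F hFd

end Pool.Agent.Results.MP_a4986b_nt.BoundedDegree
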