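import Pool.Agent.U10.Mu.A
import Pool.Agent.U10.Mu.C
import Pool.Agent.U10.Mu.Fam

/-!
# One number field controls the μ-invariants in an extension of degree prime to `p`

Let `k` be a number field, `p` a prime number and `k_∞` a `ℤ_p`-extension of `k`, for example the
cyclotomic one.  It is given by a continuous surjective homomorphism `a` from the Galois group of `k` onto
`ℤ_p` whose kernel is the Galois group of `k_∞`.  Let `Ω` be a Galois extension of `k`, finite or infinite,
such that the degrees of the finite extensions of `k` in `Ω` are prime to `p`.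

For a finite extension `K` of `k` in `Ω` let `X(K)` be the Galois group over `K k_∞` of the maximal unramified
abelian pro-`p` extension of `K k_∞`.
It is a module over `Λ = ℤ_p[[Γ]]`, `Γ = Gal(K k_∞ / K) = Gal(k_∞ / k)`.  Let `r(K)` be the rank
over `F_p[[T]]` of the module of the `Λ`-linear maps `X(K) → F_p[[T]]`, where `Γ` acts through the character
`(1 + T) ^ a`.  If `X(K)` is pseudo-isomorphic to `⊕ Λ/p^(m_i) ⊕ ⊕ Λ/(f_j)` then `r(K)` is the number of the
factors `Λ/p^(m_i)`, `m_i ≥ 1`; so `r(K) = 0` if and only if `μ = 0`.  Iwasawa's conjecture says that `r(K) = 0` for all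
`K` if `k_∞` is the cyclotomic `ℤ_p`-extension.  (For `p = 2` there is no condition at the real places.)

We show:

1. `r(K) + r(K') ≤ r(K K') + r(K ∩ K')` for all `K`, `K'` in `Ω`, without any assumption.
2. The ranks `r(K)`, `K ⊆ Ω`, are bounded if and only if there is a finite extension `K₁ ⊆ Ω` of `k` with finite
   rank that controls them: `r(K) = r(K ∩ K₁)` for all `K ⊆ Ω`.
3. In this case there is a smallest controlling field `K₀`.  It is Galois over `k`, and its Galois group
   is isomorphic to a group of `c × c` matrices over `F_p`, where `c` is the rank of `K₀`, the largest of the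
   ranks.  So the degree of `K₀` divides the order of `GL_c(F_p)` (if all ranks are at most 1 then `K₀` is
   cyclic over `k` of degree dividing `p - 1`).
4. `r(K) = r(k)` for all `K ⊆ Ω` of degree prime to the degree of `K₀`.

So in each `Ω` either the ranks are unbounded, or the counterexamples to the conjecture all come from one
number field of bounded degree.

Proof.  If `F ⊆ Ω` is Galois over `k` and contains `K`, then the restriction identifies the maps for `K` with
the maps for `F` which are fixed by `Gal(F/K)` (the index is prime to `p`; transfer).  The maps which are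
fixed by `Gal(F/K ∩ K')` are the common fixed ones of `Gal(F/K)` and `Gal(F/K')`; this gives (1), and (2)
and (3) follow with the lattice of the fields of maximal rank.  The Galois group of the smallest one acts
faithfully on a lattice over `F_p[[T]]`; its order is prime to `p`, so it acts faithfully modulo `T`.

The packages were proved by helper103 (transfer) and helper72 (matrices).
-/

set_option autoImplicit false

open Module

namespace Pool.Agent.Results.MP_a4986b_nt.ControllingField

open Pool.Agent.U10.Mu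
open Pool.Agent.U10.Shr (ine)

variable {k : Type} [Field k] [NumberField k]

/-- `f` is a continuous homomorphism from the Galois group of `K k_∞` (`a.ker` is the Galois group of
`k_∞`) to `F_p[[T]]` which is zero on all inertia groups,
with `f(σ x σ⁻¹) = (1 + T) ^ a(σ) f(x)` for all `σ` in the Galois group of `K`: a `Λ`-linear map from `X(K)` to
`F_p[[T]]`. -/
def IsLambdaMap (p : ℕ) [Fact p.Prime]
    (a : (AlgebraicClosure k ≃ₐ[k] AlgebraicClosure k) →* Multiplicative ℤ_[p])
    (K : IntermediateField k (AlgebraicClosure k))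
    (f : ↥(K.fixingSubgroup ⊓ a.ker) → PowerSeries (ZMod p)) : Prop :=
  (∀ x y, f (x * y) = f x + f y) ∧
  (∀ n, IsLocallyConstant fun x => PowerSeries.coeff n (f x)) ∧
  (∀ V : ValuationSubring (AlgebraicClosure k), ∀ x : ↥(K.fixingSubgroup ⊓ a.ker),
    x.1 ∈ ine k V → f x = 0) ∧
  ∀ σ ∈ K.fixingSubgroup, ∀ x y : ↥(K.fixingSubgroup ⊓ a.ker), y.1 = σ * x.1 * σ⁻¹ →
    f y = opw p (a σ).toAdd * f x

variable {p : ℕ} [Fact p.Prime]
  {a : (AlgebraicClosure k ≃ₐ[k] AlgebraicClosure k) →* Multiplicative ℤ_[p]}
  {K : IntermediateField k (AlgebraicClosure k)}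

omit [NumberField k] in
theorem isLambdaMap_iff (f : ↥(K.fixingSubgroup ⊓ a.ker) → PowerSeries (ZMod p)) :
    IsLambdaMap p a K f ↔ f ∈ EE p a (famI k) K.fixingSubgroup := by
  constructor
  · rintro ⟨h1, h2, h3, h4⟩
    refine ⟨h1, h2, ?_, h4⟩
    rintro D ⟨V, rfl⟩ x hx
    exact h3 V x hx
  · rintro ⟨h1, h2, h3, h4⟩
    exact ⟨h1, h2, fun V x hx => h3 _ ⟨V, rfl⟩ x hx, h4⟩

/-- The module of the `Λ`-linear maps from `X(K)` to `F_p[[T]]`. -/
def lambdaMaps (p : ℕ) [Fact p.Prime]
    (a : (AlgebraicClosure k ≃ₐ[k] AlgebraicClosure k) →* Multiplicative ℤ_[p])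
    (K : IntermediateField k (AlgebraicClosure k)) :
    Submodule (PowerSeries (ZMod p)) (↥(K.fixingSubgroup ⊓ a.ker) → PowerSeries (ZMod p)) where
  carrier := {f | IsLambdaMap p a K f}
  add_mem' := fun {f g} hf hg => (isLambdaMap_iff _).2
    (add_mem ((isLambdaMap_iff f).1 hf) ((isLambdaMap_iff g).1 hg))
  zero_mem' := (isLambdaMap_iff _).2 (zero_mem _)
  smul_mem' := fun c {f} hf => (isLambdaMap_iff _).2
    (Submodule.smul_mem _ c ((isLambdaMap_iff f).1 hf))

/-- The rank of this module over `F_p[[T]]`. -/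
noncomputable def rk (p : ℕ) [Fact p.Prime]
    (a : (AlgebraicClosure k ≃ₐ[k] AlgebraicClosure k) →* Multiplicative ℤ_[p])
    (K : IntermediateField k (AlgebraicClosure k)) : Cardinal :=
  Module.rank (PowerSeries (ZMod p)) (lambdaMaps p a K)

omit [NumberField k] in
theorem rk_eq : rk p a = rkE p a (famI k) := by
  funext K
  have h1 : lambdaMaps p a K = EE p a (famI k) K.fixingSubgroup :=
    Submodule.ext fun f => isLambdaMap_iff f
  unfold rk rkE
  rw [h1]

/-- The field `K₁` controls the ranks over the finite extensions of `k` in `Ω`. -/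
def Controls (p : ℕ) [Fact p.Prime]
    (a : (AlgebraicClosure k ≃ₐ[k] AlgebraicClosure k) →* Multiplicative ℤ_[p])
    (Ω K₁ : IntermediateField k (AlgebraicClosure k)) : Prop :=
  ∀ K ≤ Ω, FiniteDimensional k K → rk p a K = rk p a (K ⊓ K₁)

theorem result (p : ℕ) [Fact p.Prime]
    (a : (AlgebraicClosure k ≃ₐ[k] AlgebraicClosure k) →* Multiplicative ℤ_[p])
    (_ha : Continuous a) (_hs : Function.Surjective a)
    (Ω : IntermediateField k (AlgebraicClosure k)) (hΩ : Normal k Ω)
    (hd : ∀ K ≤ Ω, FiniteDimensional k K → ¬ p ∣ finrank k K) :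
    (∀ K K' : IntermediateField k (AlgebraicClosure k), K ≤ Ω → K' ≤ Ω →
      FiniteDimensional k K → FiniteDimensional k K' →
      rk p a K + rk p a K' ≤ rk p a (K ⊔ K') + rk p a (K ⊓ K')) ∧
    ((∃ m : ℕ, ∀ K ≤ Ω, FiniteDimensional k K → rk p a K ≤ m) ↔
      ∃ K₁ ≤ Ω, FiniteDimensional k K₁ ∧ rk p a K₁ < Cardinal.aleph0 ∧
        Controls p a Ω K₁) ∧
    ((∃ m : ℕ, ∀ K ≤ Ω, FiniteDimensional k K → rk p a K ≤ m) →
      ∃ K₀ ≤ Ω, FiniteDimensional k K₀ ∧ IsGalois k K₀ ∧ Controls p a Ω K₀ ∧
        (∀ K₁ ≤ Ω, FiniteDimensional k K₁ → Controls p a Ω K₁ → K₀ ≤ K₁) ∧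
        (∀ K ≤ Ω, FiniteDimensional k K → Nat.Coprime (finrank k K) (finrank k K₀) →
          rk p a K = rk p a ⊥) ∧
        finrank k K₀ ∣ Nat.card (GL (Fin (rk p a K₀).toNat) (ZMod p)) ∧
        ∃ φ : (K₀ ≃ₐ[k] K₀) →* GL (Fin (rk p a K₀).toNat) (ZMod p),
          Function.Injective φ) := by
  unfold Controls
  rw [rk_eq]
  exact mainE p Pool.Agent.U10.Mu.A.proof Pool.Agent.U10.Mu.C.proof a (stab_famI k) Ω hΩ hd

end Pool.Agent.Results.MP_a4986b_nt.ControllingField
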