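import Pool.Agent.U152.MU.Det

/-!
# Iwasawa's conjecture: reduction to CM fields and to fields with a real place

Let `p` be an odd prime. `MuZero p F` says that `μ = 0` for the cyclotomic `ℤ_p`-extension of the
number field `F`: the degrees of the unramified elementary abelian `p`-extensions of the layers `F R`
(the orders of the groups `Cl(F R) / p`) are bounded. We prove:

* Let `K / ℚ` be a finite Galois extension, let `ι` be a complex embedding, and `K ∩ ℝ` the subfield
  of the elements of `K` which are real for `ι`. Then `μ = 0` for `K` if and only if `μ = 0` for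
  `K ∩ ℝ` and for the CM fields `E ≤ K` with `p ∤ [E : ℚ]`.
* So `μ = 0` for all number fields if and only if `μ = 0` for all number fields with at least one real
  place and for all CM fields of degree prime to `p`.

For totally complex fields which are not CM fields there was no reduction of this kind: if `K` is not
a CM field, `K ∩ ℝ` is not normal, and the complex conjugations generate a nonabelian group, so there
is no decomposition in plus and minus parts.

Proof. Let `X` be the Iwasawa module of `K`. If `X / p` is infinite then there is a simple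
`𝔽_p[Gal(K / ℚ)]`-module `S` which occurs infinitely often in the quotients of the modules of the
layers, up to twist by the (unipotent) action of the cyclotomic extension; by genus theory, and since
each prime number has only finitely many primes above it in the cyclotomic extension
(`Pool.Agent.U152.MU.fin_cyc`), `μ ≠ 0` for the field `ℚ(v)` for each vector `v ≠ 0` of `S` (this is
`Pool.Agent.Q60.MU.reduction`). If the complex conjugation `c` has a fixed vector `v ≠ 0` in `S` then
`ℚ(v)` is contained in `K ∩ ℝ`. Otherwise `c` and all its conjugates act on `S` as `- 1`, so `ℚ(v)` is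
a CM field for all `v ≠ 0`, and a vector which is fixed by a Sylow `p`-subgroup gives a field of degree
prime to `p`.
-/

set_option autoImplicit false

namespace Pool.Agent.Results.MP_a4986b_nt.RealOrCM

open Module IntermediateField Pool.Agent.Q60.MU Pool.Agent.W5h77.MB Pool.Agent.U152.MU
open scoped ComplexConjugate

/-- `F` is a number field with a real place: the elements of `F` are real for some embedding. -/
def HasRealPlace (F : IntermediateField ℚ Qb) : Prop :=
  ∃ φ : Qb →+* ℂ, ∀ x ∈ F, conj (φ x) = φ x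

/-- `F` is a CM field: it has no real place, and the complex conjugation induces an automorphism
of `F` which does not depend on the embedding. -/
def IsCM (F : IntermediateField ℚ Qb) : Prop :=
  ¬ HasRealPlace F ∧ ∀ x ∈ F, ∃ y ∈ F, ∀ φ : Qb →+* ℂ, φ y = conj (φ x)

theorem isCM_of_minus {p : ℕ} [hp : Fact p.Prime] (hp2 : p ≠ 2) {S : Type} [AddCommGroup S]
    [Module (ZMod p) S] (τ : Representation (ZMod p) Gal(Qb/ℚ) S) {K : Subgroup Gal(Qb/ℚ)}
    (hKo : IsOpen (K : Set Gal(Qb/ℚ))) (hτ : ∀ g ∈ K, ∀ x, τ g x = x) (ι : Qb →+* ℂ)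
    {c : Gal(Qb/ℚ)} (hc : ∀ x, ι (c x) = conj (ι x)) (h : ∀ v, τ c v = -v) {v : S} (hv : v ≠ 0) :
    IsCM (fixedField (stab τ v)) := by
  have hso : IsOpen (stab τ v : Set Gal(Qb/ℚ)) := Subgroup.isOpen_mono (fun g hg => hτ g hg v) hKo
  have hfix : (fixedField (stab τ v)).fixingSubgroup = stab τ v := fix_fixed hso
  -- all complex conjugations act as `- 1`
  have hall : ∀ φ : Qb →+* ℂ, ∃ d : Gal(Qb/ℚ), (∀ x, φ (d x) = conj (φ x)) ∧ ∀ v, τ d v = -v := by
    intro φ
    obtain ⟨g, hg⟩ := exists_emb ι φ
    refine ⟨g⁻¹ * c * g, fun x => ?_, fun v => ?_⟩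
    · have h1 : g ((g⁻¹ * c * g) x) = c (g x) := by
        rw [← AlgEquiv.mul_apply, ← AlgEquiv.mul_apply]
        congr 1
        group
      rw [← hg, h1, hc, hg]
    · rw [map_mul, map_mul, Module.End.mul_apply, Module.End.mul_apply, h, map_neg,
        ← Module.End.mul_apply, ← map_mul, inv_mul_cancel, map_one]
      rfl
  have hinv : ∀ d : Gal(Qb/ℚ), (∀ v, τ d v = -v) → ∀ v, τ d⁻¹ v = -v := by
    intro d hd v
    have h2 : τ d⁻¹ (τ d v) = v := by
      rw [← Module.End.mul_apply, ← map_mul, inv_mul_cancel, map_one]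
      rfl
    have h3 : τ d⁻¹ (τ d v) = τ d⁻¹ (-v) := by rw [hd v]
    rw [h2, map_neg] at h3
    rw [← neg_eq_iff_eq_neg]
    exact h3.symm
  refine ⟨?_, fun x hx => ⟨c x, ?_, fun φ => ?_⟩⟩
  · rintro ⟨φ, hφ⟩
    obtain ⟨d, hd, hd1⟩ := hall φ
    have h1 : d ∈ (fixedField (stab τ v)).fixingSubgroup := by
      rw [IntermediateField.mem_fixingSubgroup_iff]
      intro x hx
      apply φ.injective
      rw [hd, hφ x hx]
    rw [hfix] at h1
    have h2 : τ d v = v := h1
    rw [hd1] at h2
    exact hv (two_ne hp2 h2)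
  · rw [mem_fixedField_iff] at hx ⊢
    intro s hs
    have h1 : c⁻¹ * s * c ∈ stab τ v := by
      show τ (c⁻¹ * s * c) v = v
      have hs' : τ s v = v := hs
      rw [map_mul, map_mul, Module.End.mul_apply, Module.End.mul_apply, h, map_neg, hs', map_neg,
        hinv c h, neg_neg]
    have h2 := hx _ h1
    have h3 : s (c x) = c ((c⁻¹ * s * c) x) := by
      rw [← AlgEquiv.mul_apply, ← AlgEquiv.mul_apply]
      congr 1
      group
    rw [h3, h2]
  · obtain ⟨d, hd, hd1⟩ := hall φ
    rw [← hd]
    congr 1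
    rw [mem_fixedField_iff] at hx
    have h1 : d⁻¹ * c ∈ stab τ v := by
      show τ (d⁻¹ * c) v = v
      rw [map_mul, Module.End.mul_apply, h, map_neg, hinv d hd1, neg_neg]
    have h2 := hx _ h1
    have h3 : c x = d ((d⁻¹ * c) x) := by
      rw [← AlgEquiv.mul_apply]
      congr 1
      group
    rw [h3, h2]

/-- The Galois case. -/
theorem galois_case {p : ℕ} [hp : Fact p.Prime] (hp2 : p ≠ 2) (ι : Qb →+* ℂ)
    (K : IntermediateField ℚ Qb) [FiniteDimensional ℚ K] [hKg : IsGalois ℚ K]
    (h1 : MuZero p (K ⊓ realSub ι))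
    (h2 : ∀ E ≤ K, IsCM E → ¬ p ∣ finrank ℚ E → MuZero p E) : MuZero p K := by
  obtain ⟨c, hc, hcc⟩ := exists_conj ι
  have hKn : K.fixingSubgroup.Normal := (InfiniteGalois.normal_iff_isGalois K).2 hKg
  have hKo := K.fixingSubgroup_isOpen
  have hKf := index_ne_zero' K
  have hfd : ∀ E : IntermediateField ℚ Qb, E ≤ K → FiniteDimensional ℚ E := fun E hE =>
    Submodule.finiteDimensional_of_le (S₁ := Subalgebra.toSubmodule E.toSubalgebra)
      (S₂ := Subalgebra.toSubmodule K.toSubalgebra) hE
  rw [← muS_iff hp.out]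
  refine inv_detS (p := p) inertia_conj finRam_inertia (lay_layers hp.out) hKn hKo hKf (c := c)
    (by rw [hcc]; exact one_mem _) ?_ ?_
  · rintro S _ _ _ τ hτ - ⟨v, hv, hv1⟩
    have hE := hfd (K ⊓ realSub ι) inf_le_left
    rw [← muS_iff hp.out, fix_real hc] at h1
    exact ⟨_, ⟨le_sup_left, h1⟩, v, hv, zpowers_le_stab hτ hv1⟩
  · intro S _ _ _ τ hτ hs hm
    have hnt : Nontrivial S := hs.1
    obtain ⟨v, hv, P, hP, hPp⟩ := exists_vec_P hKn hKf τ hτ
    have hle : K.fixingSubgroup ≤ stab τ v := fun g hg => hτ g hg v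
    have hso : IsOpen (stab τ v : Set Gal(Qb/ℚ)) := Subgroup.isOpen_mono hle hKo
    have hsf : (fixedField (stab τ v)).fixingSubgroup = stab τ v := fix_fixed hso
    have hEK : fixedField (stab τ v) ≤ K := by
      have h3 := fixedField_antitone hle
      rwa [InfiniteGalois.fixedField_fixingSubgroup K] at h3
    have hE := hfd _ hEK
    have h3 := h2 _ hEK (isCM_of_minus hp2 τ hKo hτ ι hc hm hv) (by
      rw [finrank_eq_fixingSubgroup_index, hsf]
      exact fun h4 => hPp (h4.trans (Subgroup.index_dvd_of_le hP)))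
    rw [← muS_iff hp.out, hsf] at h3
    exact ⟨stab τ v, ⟨hle, h3⟩, v, hv, le_rfl⟩

/-- Subfields. -/
theorem down {p : ℕ} (hp : p.Prime) {F K : IntermediateField ℚ Qb} [FiniteDimensional ℚ K]
    (hFK : F ≤ K) (h : MuZero p K) : MuZero p F := by
  have hF : FiniteDimensional ℚ F :=
    Submodule.finiteDimensional_of_le (S₁ := Subalgebra.toSubmodule F.toSubalgebra)
      (S₂ := Subalgebra.toSubmodule K.toSubalgebra) hFK
  rw [← muS_iff hp] at h ⊢
  exact MuS.of_le (lay_layers hp) (fixingSubgroup_le hFK) K.fixingSubgroup_isOpen (index_ne_zero' K) h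

/-- The Galois closure. -/
theorem exists_galois (F : IntermediateField ℚ Qb) [FiniteDimensional ℚ F] :
    ∃ K : IntermediateField ℚ Qb, F ≤ K ∧ FiniteDimensional ℚ K ∧ IsGalois ℚ K := by
  have hUf : F.fixingSubgroup.FiniteIndex := ⟨index_ne_zero' F⟩
  set K := F.fixingSubgroup.normalCore with hKdef
  have hKn : K.Normal := Subgroup.normalCore_normal _
  have hKo : IsOpen (K : Set Gal(Qb/ℚ)) :=
    isOpen_normalCore F.fixingSubgroup_isOpen (index_ne_zero' F)
  have hKf : K.index ≠ 0 := by
    have : K.FiniteIndex := F.fixingSubgroup.finiteIndex_normalCore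
    exact Subgroup.FiniteIndex.index_ne_zero
  have hfix := fix_fixed hKo
  exact ⟨fixedField K, (le_iff_le _ _).2 (Subgroup.normalCore_le _), finite_fixed hKo hKf,
    (InfiniteGalois.normal_iff_isGalois (fixedField K)).1 (by rw [hfix]; exact hKn)⟩

/-- **`μ = 0` for a number field `K` which is Galois over `ℚ` if and only if `μ = 0` for `K ∩ ℝ` and the
CM subfields of degree prime to `p`; `μ = 0` for all number fields if and only if `μ = 0` for the
number fields with a real place and the CM fields of degree prime to `p`.** -/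
theorem result (p : ℕ) (hp : p.Prime) (hp2 : p ≠ 2) :
    (∀ (ι : Qb →+* ℂ) (K : IntermediateField ℚ Qb), FiniteDimensional ℚ K → IsGalois ℚ K →
      (MuZero p K ↔ MuZero p (K ⊓ realSub ι) ∧
        ∀ E ≤ K, IsCM E → ¬ p ∣ finrank ℚ E → MuZero p E)) ∧
    ((∀ F : IntermediateField ℚ Qb, FiniteDimensional ℚ F → MuZero p F) ↔
      ∀ F : IntermediateField ℚ Qb, FiniteDimensional ℚ F →
        (HasRealPlace F ∨ (IsCM F ∧ ¬ p ∣ finrank ℚ F)) → MuZero p F) := by
  have hpf : Fact p.Prime := ⟨hp⟩
  refine ⟨fun ι K hK hKg => ⟨fun h => ⟨down hp inf_le_left h, fun E hE _ _ => down hp hE h⟩,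
    fun h => galois_case hp2 ι K h.1 h.2⟩, fun h F hF _ => h F hF, fun h F hF => ?_⟩
  obtain ⟨K, hFK, hK, hKg⟩ := exists_galois F
  obtain ⟨ι⟩ := exists_iota
  have hfd : ∀ E : IntermediateField ℚ Qb, E ≤ K → FiniteDimensional ℚ E := fun E hE =>
    Submodule.finiteDimensional_of_le (S₁ := Subalgebra.toSubmodule E.toSubalgebra)
      (S₂ := Subalgebra.toSubmodule K.toSubalgebra) hE
  refine down hp hFK (galois_case hp2 ι K ?_ fun E hE hcm hd => h E (hfd E hE) (Or.inr ⟨hcm, hd⟩))
  refine h _ (hfd _ inf_le_left) (Or.inl ⟨ι, fun x hx => ?_⟩)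
  exact mem_realSub.1 ((IntermediateField.mem_inf).1 hx).2

end Pool.Agent.Results.MP_a4986b_nt.RealOrCM
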